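import Pool.Agent.Results.MP_037fd6_co.OddGirthZFC

/-!
Two colourings of the digraph of the interleaved tuples.
-/

set_option linter.unusedSectionVars false

namespace Pool.Agent.Y405.OG

open Cardinal Set
open Pool.Agent.Results.MP_037fd6_co.OddGirthZFC

section Tuples

variable {Ω : Type} [LinearOrder Ω]

/-- If the colour `k` is good for both colourings then some arc goes from a tuple of colour `k` for
the first one to a tuple of colour `k` for the second one. -/
theorem exists_arc2 (hΩ : ∀ f : ℕ → Ω, ∃ α, ∀ k, f k < α) (d : Ω) (n R : ℕ) (hR : n + 1 ≤ R)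
    (c c' : List Ω → ℕ) (k : ℕ) (hk : Good c k R ([] : List Ω)) (hk2 : Good c' k R ([] : List Ω)) :
    ∃ x y, Arc d n R x y ∧ c x = k ∧ c' y = k := by
  have hinc0 : Inc d ([] : List Ω) := by
    intro i j _ hj
    simp at hj
  have key : ∀ j, j + n + 1 ≤ R → ∃ s t : List Ω, s.length = j + n + 1 ∧ t.length = j ∧
      Inc d s ∧ Inc d t ∧ Good c k (R - (j + n + 1)) s ∧ Good c' k (R - j) t ∧
      ∀ i, i < j → nth d s (i + n) < nth d t i ∧ nth d t i < nth d s (i + n + 1) := by
    intro j
    induction j with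
    | zero =>
      intro hj
      have hk' : Good c k ((n + 1) + (R - (n + 1))) ([] : List Ω) := by
        have : (n + 1) + (R - (n + 1)) = R := by omega
        rwa [this]
      obtain ⟨s, h1, h2, h3, h4, h5⟩ := good_extend hΩ (R - (n+1)) (fun _ => d) (n+1) hinc0 hk'
      refine ⟨s, [], by simpa using h1, rfl, h4, hinc0, by simpa using h5, by simpa using hk2, ?_⟩
      intro i hi
      omega
    | succ j ih =>
      intro hj
      obtain ⟨s, t, hs, ht, hsi, hti, hsg, htg, hst⟩ := ih (by omega)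
      have htg' : Good c' k ((R - (j + 1)) + 1) t := by
        have : (R - (j + 1)) + 1 = R - j := by omega
        rwa [this]
      obtain ⟨b, hb1, hb2, hb3, hb4⟩ := good_step hΩ hti htg' (nth d s)
      have hsg' : Good c k ((R - (j + 1 + n + 1)) + 1) s := by
        have : (R - (j + 1 + n + 1)) + 1 = R - (j + n + 1) := by omega
        rwa [this]
      obtain ⟨a, ha1, ha2, ha3, ha4⟩ := good_step hΩ hsi hsg' (fun _ => b)
      refine ⟨s ++ [a], t ++ [b], by simp; omega, by simp; omega, ha3, hb3, ha4, hb4, ?_⟩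
      intro i hi
      rcases Nat.lt_succ_iff_lt_or_eq.1 hi with h | h
      · rw [nth_append_left d s _ (i + n) (by omega), nth_append_left d t _ i (by omega),
          nth_append_left d s _ (i + n + 1) (by omega)]
        exact hst i h
      · subst h
        have e1 : nth d (t ++ [b]) i = b := by
          have := nth_append_last d t b
          rwa [ht] at this
        have e2 : nth d (s ++ [a]) (i + n + 1) = a := by
          have := nth_append_last d s a
          rwa [hs] at this
        rw [e1, e2, nth_append_left d s _ (i + n) (by omega)]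
        exact ⟨hb1 _, ha1 0⟩
  obtain ⟨s, t, hs, ht, hsi, hti, hsg, htg, hst⟩ := key (R - (n + 1)) (by omega)
  have htg' : Good c' k ((n + 1) + 0) t := by
    have : (n + 1) + 0 = R - (R - (n + 1)) := by omega
    rwa [this]
  obtain ⟨t', h1, h2, h3, h4, h5⟩ := good_extend hΩ 0 (nth d s) (n+1) hti htg'
  have hsg' : Good c k 0 s := by
    have : R - (R - (n + 1) + n + 1) = 0 := by omega
    rwa [this] at hsg
  refine ⟨s, t', ⟨by omega, by omega, hsi, h4, ?_, ?_⟩, hsg', h5⟩
  · intro i hi
    by_cases h : i < R - (n + 1)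
    · rw [h2 i (by omega)]
      exact (hst i h).1
    · exact h3 i (by omega) (by omega) _
  · intro i hi
    rw [h2 i (by omega)]
    exact (hst i (by omega)).2

end Tuples

/-- The oriented product of a graph and the digraph of the interleaved tuples. -/
def PD {V : Type} (H : SimpleGraph V) (o : V → V → Prop) (d : W) (n R : ℕ) :
    V × List W → V × List W → Prop :=
  fun p q => H.Adj p.1 q.1 ∧ o p.1 q.1 ∧ Arc d n R p.2 q.2

theorem main {V : Type} (H : SimpleGraph V) (hV : #V ≤ 𝔠) (o : V → V → Prop)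
    (ho : ∀ u v, H.Adj u v → o u v ∨ o v u)
    (hc : ∀ v, {u | H.Adj u v ∧ o u v}.Countable)
    (hH : ¬ Nonempty (H.Coloring ℕ)) (k : ℕ) :
    ∃ (U : Type) (G : SimpleGraph U),
      cardChromatic G = ℵ₁ ∧ Nonempty (G →g H) ∧
      ¬ (completeBipartiteGraph ℕ ℕ).IsContained G ∧
      ∀ r : ℕ, 1 ≤ r → r ≤ k → ¬ (SimpleGraph.cycleGraph (2 * r + 1)).IsContained G := by
  have hWne : Nonempty W := by
    rw [← Cardinal.mk_ne_zero_iff, mk_W]
    exact (Cardinal.aleph_pos 1).ne'
  obtain ⟨d⟩ := hWne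
  have hVne : Nonempty V := by
    by_contra hne
    rw [not_nonempty_iff] at hne
    exact hH ⟨SimpleGraph.Coloring.mk (fun v => (hne.false v).elim) (fun {v} => (hne.false v).elim)⟩
  obtain ⟨v₀⟩ := hVne
  set n : ℕ := k + 1 with hn
  set N : ℕ := (n + 1) * (2 * n + 1) with hN
  have hNn : 2 * n + 1 ≤ N := by
    rw [hN]
    exact Nat.le_mul_of_pos_left _ (by omega)
  set R : ℕ := 2 * N + 1 with hR
  let X : Type := V × List W
  let D : X → X → Prop := PD H o d n R
  have hLcard : #(List W) = ℵ₁ := by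
    have : Infinite W := by
      rw [Cardinal.infinite_iff, mk_W]
      exact Cardinal.aleph0_lt_aleph_one.le
    rw [Cardinal.mk_list_eq_mk, mk_W]
  have hρ : ∃ ρ : X → ℕ → Bool, Function.Injective ρ := by
    have h1 : #X ≤ #(ℕ → Bool) := by
      have h2 : #X = #V * #(List W) := by simp [X]
      rw [h2, hLcard]
      calc #V * ℵ₁ ≤ 𝔠 * 𝔠 := mul_le_mul' hV Cardinal.aleph_one_le_continuum
        _ = 𝔠 := Cardinal.continuum_mul_self
        _ = #(ℕ → Bool) := by simp
    obtain ⟨f⟩ := (Cardinal.le_def _ _).1 h1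
    exact ⟨f, f.injective⟩
  obtain ⟨ρ, hρ⟩ := hρ
  have hcount : ∀ y : X, {x | D x y}.Countable := by
    rintro ⟨v, t⟩
    refine ((hc v).prod (arc_countable W_countable (n := n) (R := R) (d := d) (by omega) t)).mono ?_
    rintro ⟨u, s⟩ h
    exact ⟨⟨h.1, h.2.1⟩, h.2.2⟩
  have he : ∃ e : X → X → ℕ, ∀ y x x', D x y → D x' y → e y x = e y x' → x = x' := by
    have h1 : ∀ y : X, ∃ f : X → ℕ, Set.InjOn f {x | D x y} := fun y =>
      Set.countable_iff_exists_injOn.1 (hcount y)
    choose e he using h1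
    exact ⟨e, fun y x x' h h' hxx => he y h h' hxx⟩
  obtain ⟨e, he⟩ := he
  have hD : ∀ x, ¬ D x x := fun x h => arc_irrefl (by omega) x.2 h.2.2
  have h1 : ∀ y n x, Slot D ρ e y n x → D x y := fun y n x h => h.1
  have h2 := fun y n => slot_fin (ρ := ρ) he y n
  have h3 := fun y y' (h : y ≠ y') => slot_ad he hρ y y' h
  have h4 : ∀ x y, D x y → ∀ k, ∃ n, sched n = k ∧ Slot D ρ e y n x :=
    fun x y h k => slot_catch x y h k
  have h5 : ∀ c : X → ℕ, ∃ x y, D x y ∧ c x = c y := by
    intro c
    have hg : ∀ v : V, ∃ k, Good (fun s => c (v, s)) k R ([] : List W) := fun v =>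
      exists_good W_unbounded (fun s => c (v, s)) R []
    choose g hg using hg
    have hbad : ∃ u v, H.Adj u v ∧ g u = g v := by
      by_contra hno
      push Not at hno
      exact hH ⟨SimpleGraph.Coloring.mk g (fun {u v} huv => hno u v huv)⟩
    obtain ⟨u, v, huv, hguv⟩ := hbad
    rcases ho u v huv with hor | hor
    · obtain ⟨s, t, hst, hs, ht⟩ := exists_arc2 W_unbounded d n R (by omega)
        (fun s => c (u, s)) (fun s => c (v, s)) (g u) (hg u) (by rw [hguv]; exact hg v)
      exact ⟨(u, s), (v, t), ⟨huv, hor, hst⟩, hs.trans ht.symm⟩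
    · obtain ⟨s, t, hst, hs, ht⟩ := exists_arc2 W_unbounded d n R (by omega)
        (fun s => c (v, s)) (fun s => c (u, s)) (g u) (by rw [hguv]; exact hg v) (hg u)
      exact ⟨(v, s), (u, t), ⟨huv.symm, hor, hst⟩, hs.trans ht.symm⟩
  have h6 : ∀ x y z w, D x y → D y z → D z w → ¬ D x w := fun x y z w a b c e =>
    arc_no_four (by omega) (by omega) x.2 y.2 z.2 w.2 a.2.2 b.2.2 c.2.2 e.2.2
  let x₀ : X := (v₀, [])
  have hcolW : ∀ {v w : Node X}, (blow (Slot D ρ e) x₀ h1 hD).Adj v w →
      (tp x₀ v).2 ≠ (tp x₀ w).2 := by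
    intro v w hvw heq
    rcases hvw with h | h
    · have h7 := (h.tp_rel h1 x₀).2.2
      rw [heq] at h7
      exact arc_irrefl (by omega) _ h7
    · have h7 := (h.tp_rel h1 x₀).2.2
      rw [heq] at h7
      exact arc_irrefl (by omega) _ h7
  refine ⟨Node X, blow (Slot D ρ e) x₀ h1 hD, ?_, ⟨⟨fun v => (tp x₀ v).1, ?_⟩⟩,
    blow_no_Kww x₀ h1 hD h2 h3 h6, ?_⟩
  · -- the chromatic number
    apply le_antisymm
    · exact csInf_le' ⟨List W, hLcard,
        ⟨SimpleGraph.Coloring.mk (fun v => (tp x₀ v).2) (fun {v w} h => hcolW h)⟩⟩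
    · refine le_csInf ⟨#(List W), List W, rfl,
        ⟨SimpleGraph.Coloring.mk (fun v => (tp x₀ v).2) (fun {v w} h => hcolW h)⟩⟩ ?_
      rintro κ ⟨C, rfl, ⟨col⟩⟩
      by_contra hlt
      push Not at hlt
      rw [Cardinal.lt_aleph_one_iff, Cardinal.mk_le_aleph0_iff] at hlt
      obtain ⟨f, hf⟩ := exists_injective_nat C
      obtain ⟨v, w, hvw, hc⟩ := no_coloring (N := Slot D ρ e) sched h4 h5 (fun v => f (col v))
      exact col.valid (Or.inl hvw) (hf hc)
  · -- the homomorphism
    intro v w hvw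
    rcases hvw with h | h
    · exact (h.tp_rel h1 x₀).1.symm
    · exact (h.tp_rel h1 x₀).1
  · -- odd cycles
    rintro r hr1 hrk ⟨f⟩
    have hadj : ∀ i j : Fin (2 * r + 1), (SimpleGraph.cycleGraph (2 * r + 1)).Adj i j →
        Arc d n R (tp x₀ (f i)).2 (tp x₀ (f j)).2 ∨ Arc d n R (tp x₀ (f j)).2 (tp x₀ (f i)).2 := by
      intro i j hij
      rcases f.toHom.map_adj hij with h | h
      · exact Or.inr (h.tp_rel h1 x₀).2.2
      · exact Or.inl (h.tp_rel h1 x₀).2.2
    refine arc_no_odd_closed (d := d) (n := n) (N := N) hN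
      (fun j => (tp x₀ (f (Fin.ofNat (2 * r + 1) j))).2) (2 * r + 1) ⟨r, rfl⟩ (by omega) ?_ ?_
    · intro j hj
      apply hadj
      rw [SimpleGraph.cycleGraph_adj']
      right
      rw [Fin.sub_def]
      simp only [Fin.ofNat]
      rw [Nat.mod_eq_of_lt hj]
      by_cases hj1 : j + 1 < 2 * r + 1
      · rw [Nat.mod_eq_of_lt hj1]
        have : 2 * r + 1 - j + (j + 1) = 1 + (2 * r + 1) := by omega
        rw [this, Nat.add_mod_right, Nat.mod_eq_of_lt (by omega)]
      · have hj2 : j + 1 = 2 * r + 1 := by omega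
        rw [hj2, Nat.mod_self]
        have : 2 * r + 1 - j + 0 = 1 := by omega
        rw [this, Nat.mod_eq_of_lt (by omega)]
    · have : Fin.ofNat (2 * r + 1) (2 * r + 1) = Fin.ofNat (2 * r + 1) 0 := by
        apply Fin.ext
        simp [Fin.ofNat]
      simp only [this]

/-- Every set with at most `ℵ₁` elements has a relation which compares any two different elements
and for which all initial segments are countable. -/
theorem exists_orientation {V : Type} (hV : #V ≤ ℵ₁) :
    ∃ o : V → V → Prop, (∀ u v, u ≠ v → o u v ∨ o v u) ∧ ∀ v, {u | o u v}.Countable := by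
  rw [← mk_W] at hV
  obtain ⟨f⟩ := (Cardinal.le_def _ _).1 hV
  refine ⟨fun u v => f u < f v, fun u v h => lt_or_gt_of_ne (fun h' => h (f.injective h')), ?_⟩
  intro v
  exact ((W_countable (f v)).preimage f.injective).mono (fun u hu => hu)

end Pool.Agent.Y405.OG
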